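import Mathlib
import Pool.Agent.helper23.PTD.NikS
import Pool.Agent.helper23.PTD.Defs

/-!
# Kakeya and Nikodym maximal bounds over `Z/p^k`, in every dimension, with the sharp power of `k`

Let `R = Z/p^k`, `N = p^k`, `E ⊆ R^n`, `m ≥ 1`.  Directions are vectors with a unit coordinate.

* Kakeya: the number of directions `u` such that some line in direction `u` has at least `m` points
  in `E` is at most `2 n (2 n k)^(n-1) (N/m)^n |E|`.
* Nikodym: the number of points `x` such that some line through `x` has at least `m` points in `E` is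
  at most `7 n 4^n (2 n k)^(n-1) (N/m)^n |E|`.
* Tube doubling with shadings: if each segment `{a + p t u : t ∈ R}` of a family has at least `m`
  points in `E`, the union of the dilated segments `{a + t u : t ∈ R}` has at most
  `7 n 4^n (2 n k)^(n-1) (N/m)^n |E|` points.
-/

set_option autoImplicit false

namespace Pool.Agent.Results.MP_2ce96a_an.PadicMaximal

open PTD

/-- Restricted weak type bounds for the Kakeya and Nikodym maximal functions over `Z/p^k`, and tube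
doubling with shadings. -/
theorem result (p k n : ℕ) (hp : p.Prime) (hk : 1 ≤ k)
    (E : Finset (Fin n → ZMod (p ^ k))) (m : ℕ) (hm : 1 ≤ m) :
    {u : Fin n → ZMod (p ^ k) | (∃ i, IsUnit (u i)) ∧ ∃ a : Fin n → ZMod (p ^ k),
        m ≤ {t : ZMod (p ^ k) | a + t • u ∈ E}.ncard}.ncard * m ^ n ≤
      2 * n * (2 * n * k) ^ (n - 1) * (p ^ k) ^ n * E.card ∧
    {x : Fin n → ZMod (p ^ k) | ∃ u : Fin n → ZMod (p ^ k), (∃ i, IsUnit (u i)) ∧
        m ≤ {t : ZMod (p ^ k) | x + t • u ∈ E}.ncard}.ncard * m ^ n ≤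
      7 * n * 4 ^ n * (2 * n * k) ^ (n - 1) * (p ^ k) ^ n * E.card ∧
    ∀ L : Finset ((Fin n → ZMod (p ^ k)) × (Fin n → ZMod (p ^ k))),
      (∀ l ∈ L, (∃ i, IsUnit (l.2 i)) ∧
        m ≤ {y | y ∈ E ∧ ∃ t : ZMod (p ^ k), y = l.1 + ((p : ZMod (p ^ k)) * t) • l.2}.ncard) →
      {x | ∃ l ∈ L, ∃ t : ZMod (p ^ k), x = l.1 + t • l.2}.ncard * m ^ n ≤
        7 * n * 4 ^ n * (2 * n * k) ^ (n - 1) * (p ^ k) ^ n * E.card := by
  classical
  have hN0 : 0 < p ^ k := pow_pos hp.pos _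
  have : NeZero (p ^ k) := ⟨hN0.ne'⟩
  refine ⟨rich p k n hp hk E m hm, nikodym p k n hp hk E m hm, ?_⟩
  intro L hL
  refine le_trans ?_ (nikodym p k n hp hk E m hm)
  refine Nat.mul_le_mul_right _ (Set.ncard_le_ncard ?_ (Set.toFinite _))
  rintro x ⟨l, hl, s, rfl⟩
  obtain ⟨⟨i, hi⟩, h2⟩ := hL l hl
  refine ⟨l.2, ⟨i, hi⟩, h2.trans ?_⟩
  have h3 : {y | y ∈ E ∧ ∃ t : ZMod (p ^ k), y = l.1 + ((p : ZMod (p ^ k)) * t) • l.2} ⊆
      (fun τ : ZMod (p ^ k) => (l.1 + s • l.2) + τ • l.2) ''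
        {τ : ZMod (p ^ k) | (l.1 + s • l.2) + τ • l.2 ∈ E} := by
    rintro y ⟨hy, t, rfl⟩
    refine ⟨(p : ZMod (p ^ k)) * t - s, ?_, ?_⟩
    · have : (l.1 + s • l.2) + ((p : ZMod (p ^ k)) * t - s) • l.2 =
          l.1 + ((p : ZMod (p ^ k)) * t) • l.2 := by
        rw [sub_smul]; abel
      rw [Set.mem_ofPred_eq, this]
      exact hy
    · show (l.1 + s • l.2) + ((p : ZMod (p ^ k)) * t - s) • l.2 =
          l.1 + ((p : ZMod (p ^ k)) * t) • l.2
      rw [sub_smul]; abel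
  exact (Set.ncard_le_ncard h3 (Set.toFinite _)).trans (Set.ncard_image_le (Set.toFinite _))

end Pool.Agent.Results.MP_2ce96a_an.PadicMaximal
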