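import Mathlib
import Pool.Agent.helper23.PTD.QpMain
import Pool.Agent.helper23.PTD.Asymp

/-!
# Tube doubling over the `p`-adic numbers, in every dimension, with the sharp power of the logarithm

`ℚ_p^n` carries the maximum norm and a Haar measure `μ`.  A `δ`-tube is the open `δ`-neighbourhood
of a unit segment `{a + t u : |t| ≤ 1}`, `‖u‖ = 1`; its dilate is the image under the homothety of
ratio `p⁻¹` (so `|p⁻¹| = p`) with centre `a`, that is the `pδ`-neighbourhood of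
`{a + t u : |t| ≤ p}`.  With `Λ = 1 + log_p (1/δ)` we show, for all `n ≥ 1` and `0 < δ ≤ 1`:

* for every set of `δ`-tubes, `μ(⋃ dilates) ≤ 3 n p^(2n) (2nΛ)^(n-1) μ(⋃ tubes)`; hence for every
  `ε > 0` the loss is at most `δ^(-ε)` for small `δ`, which is the tube doubling statement;
* for some finite set of `δ`-tubes, `μ(⋃ dilates) ≥ (Λ/p)^(n-1) μ(⋃ tubes)`.

Proof of the upper bound: the question is reduced to `(Z/p^k)^n`.  A point `x` of the larger union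
outside the smaller one `E` has a direction `v` with `x + t v ∈ E` for all `t ≡ 1 mod p`.  The map
`y ↦ ((y₀ - c)⁻¹, y' (y₀ - c)⁻¹)` turns the points `x` of one slice `x₀ = c` into directions, and a
Kakeya bound for arbitrary sets of directions applies.  That bound is proved by evaluating
`∑_y g_y(x₀) ∏_i ∏_{c ≡ y_i mod Q, c ≠ y_i} (x_i - x₀^c)` at `p^k`-th roots of unity, restricting to
a curve `x₀ = T, x_i = w_i T^{y_i}` and reducing modulo the maximal ideal, where the order of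
vanishing at `T = 1` is compared with `deg g_y + ∑ p^{v_p(y_i - c)}`.  The lower bound uses random
`1`-Lipschitz functions (survival of a critical branching process).
-/

set_option autoImplicit false

open MeasureTheory

namespace Pool.Agent.Results.MP_2ce96a_an.PadicTubeDoubling

open PTD

/-- Tube doubling over `ℚ_p` in every dimension `n ≥ 1`, with the sharp power of `log (1/δ)`. -/
theorem result (p n : ℕ) [Fact p.Prime] (hn : 1 ≤ n)
    [MeasurableSpace (Fin n → ℚ_[p])] [BorelSpace (Fin n → ℚ_[p])]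
    (μ : Measure (Fin n → ℚ_[p])) [μ.IsAddHaarMeasure] :
    (∀ ε : ℝ, 0 < ε → ∃ δ₀ : ℝ, 0 < δ₀ ∧ ∀ δ : ℝ, 0 < δ → δ < δ₀ →
      ∀ 𝕋 : Set ((Fin n → ℚ_[p]) × (Fin n → ℚ_[p])), (∀ l ∈ 𝕋, ‖l.2‖ = 1) →
        μ (⋃ l ∈ 𝕋, dtube δ l) ≤ ENNReal.ofReal (δ ^ (-ε)) * μ (⋃ l ∈ 𝕋, tube δ l)) ∧
    (∀ δ : ℝ, 0 < δ → δ ≤ 1 →
      ∀ 𝕋 : Set ((Fin n → ℚ_[p]) × (Fin n → ℚ_[p])), (∀ l ∈ 𝕋, ‖l.2‖ = 1) →
        μ (⋃ l ∈ 𝕋, dtube δ l) ≤
          ENNReal.ofReal (3 * n * (p : ℝ) ^ (2 * n) *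
            (2 * n * (1 + Real.logb p (1 / δ))) ^ (n - 1)) * μ (⋃ l ∈ 𝕋, tube δ l)) ∧
    (∀ δ : ℝ, 0 < δ → δ ≤ 1 →
      ∃ 𝕋 : Finset ((Fin n → ℚ_[p]) × (Fin n → ℚ_[p])), 𝕋.Nonempty ∧
        (∀ l ∈ 𝕋, ‖l.2‖ = 1) ∧
        ENNReal.ofReal (((1 + Real.logb p (1 / δ)) / p) ^ (n - 1)) *
          μ (⋃ l ∈ 𝕋, tube δ l) ≤ μ (⋃ l ∈ 𝕋, dtube δ l)) := by
  refine ⟨?_, ?_, ?_⟩
  · intro ε hε
    obtain ⟨δ₀, h0, h1, h2⟩ := log_small (p : ℝ) (3 * n * (p : ℝ) ^ (2 * n)) (2 * n) (n - 1) ε hε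
    refine ⟨δ₀, h0, fun δ hδ hlt 𝕋 hu => ?_⟩
    refine (upperQp μ hn δ hδ (hlt.le.trans h1) 𝕋 hu).trans ?_
    exact mul_le_mul' (ENNReal.ofReal_le_ofReal (h2 δ hδ hlt)) le_rfl
  · intro δ h0 h1 𝕋 hu
    exact upperQp μ hn δ h0 h1 𝕋 hu
  · intro δ h0 h1
    exact lowerQp μ hn δ h0 h1

end Pool.Agent.Results.MP_2ce96a_an.PadicTubeDoubling
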