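import Mathlib
import Pool.Agent.helper64.TD.Upper
import Pool.Agent.helper64.TD.Lower

/-!
# Tube doubling for product families: the sharp power of the logarithm

A product family in `ℝ ^ (m + 1)` consists of the tubes around the unit segments with midpoint
`(0, a₁, …, aₘ)` and direction `(1, c₁, …, cₘ)`, normalised, where the pairs `(aᵢ, cᵢ)` run
independently over finite planar families `F i` of lines `x = aᵢ + cᵢ t` with slopes at most one.
For these families the tube doubling inequality holds in every dimension, with a loss of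
`(log (1 / δ)) ^ m`, and this power is optimal. In particular the loss in the tube doubling
inequality in dimension `n ≥ 2` is at least a multiple of `(log (1 / δ)) ^ (n - 1)`.
-/

set_option autoImplicit false

open MeasureTheory Metric Set
open scoped ENNReal

namespace Pool.Agent.Results.MP_2ce96a_an.ProductFamilies

open Pool.Agent.helper23.TubeDouble Pool.Agent.helper64.TD

theorem le_L {m : ℕ} (hm : 1 ≤ m) {δ : ℝ} (hδ : 0 < δ) (hδ2 : δ < 1 / 2) :
    ENNReal.ofReal (1 / 18 * (Real.log (1 / δ) / (5440 * Real.sqrt m)) ^ m) ≤ L (m + 1) δ := by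
  classical
  obtain ⟨F, hne, -, hF⟩ := exists_family hm hδ hδ2
  have h1 := (L_le_iff (n := m + 1) hδ _).mp le_rfl (prodFamily F) (norm_prodFamily F)
  have hne2 : (prodFamily F).Nonempty := by
    unfold prodFamily
    exact Finset.Nonempty.image (Fintype.piFinset_nonempty.mpr hne) _
  have h2 := volume_tubes_ne_zero (n := m + 1) hδ (prodFamily F) hne2
  have h3 := volume_tubes_ne_top (n := m + 1) (δ := δ) (prodFamily F) (norm_prodFamily F)
  exact (ENNReal.mul_le_mul_iff_left h2 h3).mp (hF.trans h1)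

/-- Tube doubling for product families. (i) The upper bound: in `ℝ ^ (m + 1)` the loss for a
product family with slopes at most one is at most
`8 √(m + 1) (1488 m (m + 1) log (1 / δ)) ^ m`. (ii) The lower bound: for every `δ` some product
family has loss at least `(log (1 / δ) / (5440 √m)) ^ m / 18`. (iii) Hence the optimal constant
`L n δ` of the tube doubling inequality in `ℝ ^ n` is at least a multiple of
`(log (1 / δ)) ^ (n - 1)`, for every `n ≥ 2`. -/
theorem result :
    (∀ (m : ℕ) (δ : ℝ), 1 ≤ m → 0 < δ → δ < 1 / 2 →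
      ∀ F : Fin m → Finset (ℝ × ℝ), (∀ i, ∀ p ∈ F i, |p.2| ≤ 1) →
        volume (doubles (m + 1) δ (prodFamily F)) ≤
          ENNReal.ofReal
              (8 * Real.sqrt (m + 1) * (1488 * m * (m + 1) * Real.log (1 / δ)) ^ m) *
            volume (tubes (m + 1) δ (prodFamily F))) ∧
    (∀ (m : ℕ) (δ : ℝ), 1 ≤ m → 0 < δ → δ < 1 / 2 →
      ∃ F : Fin m → Finset (ℝ × ℝ), (∀ i, (F i).Nonempty) ∧ (∀ i, ∀ p ∈ F i, |p.2| ≤ 1) ∧
        ENNReal.ofReal (1 / 18 * (Real.log (1 / δ) / (5440 * Real.sqrt m)) ^ m) *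
            volume (tubes (m + 1) δ (prodFamily F)) ≤
          volume (doubles (m + 1) δ (prodFamily F))) ∧
    (∀ n : ℕ, 2 ≤ n → ∃ c : ℝ, 0 < c ∧ ∀ δ : ℝ, 0 < δ → δ < 1 / 2 →
      ENNReal.ofReal (c * Real.log (1 / δ) ^ (n - 1)) ≤ L n δ) := by
  refine ⟨fun m δ hm hδ hδ2 F hF => volume_doubles_le hm F hF hδ hδ2,
    fun m δ hm hδ hδ2 => exists_family hm hδ hδ2, ?_⟩
  intro n hn
  obtain ⟨m, rfl⟩ : ∃ m, n = m + 1 := ⟨n - 1, by omega⟩
  have hm : 1 ≤ m := by omega
  have hm0 : (0 : ℝ) < m := by exact_mod_cast hm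
  have hq : 0 < Real.sqrt m := Real.sqrt_pos.mpr hm0
  refine ⟨1 / 18 * (1 / (5440 * Real.sqrt m)) ^ m, by positivity, fun δ hδ hδ2 => ?_⟩
  have h1 := le_L hm hδ hδ2
  have e : 1 / 18 * (1 / (5440 * Real.sqrt m)) ^ m * Real.log (1 / δ) ^ (m + 1 - 1) =
      1 / 18 * (Real.log (1 / δ) / (5440 * Real.sqrt m)) ^ m := by
    rw [Nat.add_sub_cancel, div_pow, div_pow]
    ring
  rw [e]
  exact h1

end Pool.Agent.Results.MP_2ce96a_an.ProductFamilies
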