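import Mathlib
import Pool.Agent.helper23.TubeDouble.Power

/-!
# Tube doubling: supermultiplicativity of the optimal constant in the dimension

Let `L n δ` be the supremum of `|⋃ doubles| / |⋃ tubes|` over all finite families of `δ`-tubes in
`ℝ ^ n`. We prove `L m δ * L n δ ≤ 23 ^ (m + n) * (1 + log (1 / δ)) ^ 2 * L (m + n) (δ / 2)`.
Hence a loss `δ ^ (-A)` in one dimension `N ≥ n k` gives a loss at most `δ ^ (-(A / k + ε))` in
dimension `n`, and the tube doubling inequality with sub-polynomial loss holds in all dimensions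
`n ≥ 4` if and only if, for every `κ > 0`, there are arbitrarily large dimensions `N` with loss
`O (δ ^ (-κ N))`; if it fails in one dimension then the loss exponent grows at least linearly
in the dimension.

The idea of passing to a product of tubes is due to a note of the team (helper88); the version
with slabs near the ends and with unequal speeds is what is formalised here.
-/

set_option autoImplicit false

open MeasureTheory Metric Set
open scoped ENNReal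

namespace Pool.Agent.Results.MP_2ce96a_an.SuperMult

open Pool.Agent.helper23.TubeDouble

/-- The tube doubling conjecture: the frozen statement `S04189`, word for word. -/
def TubeDoubling : Prop :=
    ∀ n : ℕ, 4 ≤ n → ∀ ε : ℝ, 0 < ε → ∃ δ₀ : ℝ, 0 < δ₀ ∧ ∀ δ : ℝ, 0 < δ → δ < δ₀ →
      ∀ S : Finset (EuclideanSpace ℝ (Fin n) × EuclideanSpace ℝ (Fin n)),
        (∀ p ∈ S, ‖p.2‖ = 1) →
        MeasureTheory.volume (⋃ p ∈ S, {x : EuclideanSpace ℝ (Fin n) |
            ∃ t ∈ Set.Icc (-1 : ℝ) 1, dist x (p.1 + t • p.2) < 2 * δ})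
          ≤ ENNReal.ofReal (δ ^ (-ε)) *
            MeasureTheory.volume (⋃ p ∈ S, {x : EuclideanSpace ℝ (Fin n) |
              ∃ t ∈ Set.Icc (-1/2 : ℝ) (1/2), dist x (p.1 + t • p.2) < δ})

theorem lossExp_eventually {n : ℕ} {A B : ℝ} (h : LossExp n A) (hAB : A < B) :
    ∃ δ₀ : ℝ, 0 < δ₀ ∧ ∀ δ : ℝ, 0 < δ → δ < δ₀ → L n δ ≤ ENNReal.ofReal (δ ^ (-B)) := by
  obtain ⟨C, δ₁, hδ₁, hC⟩ := h
  have hBA : 0 < B - A := by linarith
  have hC1 : 0 < |C| + 1 := by positivity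
  refine ⟨min δ₁ ((|C| + 1)⁻¹ ^ (1 / (B - A))), lt_min hδ₁ (by positivity),
    fun δ hδ hlt => ?_⟩
  refine (hC δ hδ (hlt.trans_le (min_le_left _ _))).trans (ENNReal.ofReal_le_ofReal ?_)
  have h1 : δ < (|C| + 1)⁻¹ ^ (1 / (B - A)) := hlt.trans_le (min_le_right _ _)
  have h2 : δ ^ (B - A) ≤ (|C| + 1)⁻¹ := by
    calc δ ^ (B - A) ≤ ((|C| + 1)⁻¹ ^ (1 / (B - A))) ^ (B - A) :=
          Real.rpow_le_rpow hδ.le h1.le hBA.le
      _ = (|C| + 1)⁻¹ := by
          rw [← Real.rpow_mul (by positivity), one_div_mul_cancel hBA.ne', Real.rpow_one]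
  have h3 : δ ^ (-A) = δ ^ (B - A) * δ ^ (-B) := by
    rw [← Real.rpow_add hδ]
    congr 1
    ring
  calc C * δ ^ (-A) ≤ (|C| + 1) * δ ^ (-A) :=
        mul_le_mul_of_nonneg_right ((le_abs_self C).trans (by linarith)) (by positivity)
    _ = (|C| + 1) * δ ^ (B - A) * δ ^ (-B) := by rw [h3, mul_assoc]
    _ ≤ (|C| + 1) * (|C| + 1)⁻¹ * δ ^ (-B) := by gcongr
    _ = δ ^ (-B) := by rw [mul_inv_cancel₀ hC1.ne', one_mul]

theorem tubeDoubling_iff :
    TubeDoubling ↔ ∀ κ : ℝ, 0 < κ → ∀ N₀ : ℕ, ∃ N : ℕ, N₀ ≤ N ∧ LossExp N (κ * N) := by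
  constructor
  · intro h κ hκ N₀
    have h4 : 4 ≤ max 4 N₀ := le_max_left _ _
    have hN : (0 : ℝ) < (max 4 N₀ : ℕ) := by
      have : 0 < max 4 N₀ := by omega
      exact_mod_cast this
    obtain ⟨δ₀, hδ₀, h1⟩ := h (max 4 N₀) h4 (κ * (max 4 N₀ : ℕ)) (by positivity)
    refine ⟨max 4 N₀, le_max_right _ _, 1, δ₀, hδ₀, fun δ hδ hlt => ?_⟩
    rw [L_le_iff hδ, one_mul]
    exact fun S hS => h1 δ hδ hlt S hS
  · intro h n hn ε hε
    have hn0 : (0 : ℝ) < n := by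
      have : 0 < n := by omega
      exact_mod_cast this
    obtain ⟨N, hN, hL⟩ := h (ε / (8 * n)) (by positivity) n
    have hk : 1 ≤ N / n := (Nat.one_le_div_iff (by omega)).mpr hN
    have hk2 : n * (N / n) ≤ N := Nat.mul_div_le N n
    have hk3 : N < n * (N / n + 1) := Nat.lt_mul_div_succ N (by omega)
    have h1 := hL.down hk hk2 (ε := ε / 4) (by positivity)
    have hkr : (1 : ℝ) ≤ (N / n : ℕ) := by exact_mod_cast hk
    have hNr : (N : ℝ) ≤ 2 * n * (N / n : ℕ) := by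
      have h2 : N ≤ 2 * n * (N / n) := by nlinarith
      exact_mod_cast h2
    have hexp : ε / (8 * n) * N / (N / n : ℕ) + ε / 4 < ε := by
      have h3 : ε / (8 * n) * N / (N / n : ℕ) ≤ ε / 4 := by
        rw [div_le_iff₀ (by linarith)]
        calc ε / (8 * n) * N ≤ ε / (8 * n) * (2 * n * (N / n : ℕ)) := by gcongr
          _ = ε / 4 * (N / n : ℕ) := by
              field_simp
              ring
      linarith
    obtain ⟨δ₀, hδ₀, h2⟩ := lossExp_eventually h1 hexp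
    exact ⟨δ₀, hδ₀, fun δ hδ hlt => (L_le_iff hδ _).mp (h2 δ hδ hlt)⟩

theorem of_not {κ : ℝ} {N : ℕ} (h : ¬ LossExp N (κ * N)) (C δ₀ : ℝ) (hδ₀ : 0 < δ₀) :
    ∃ δ : ℝ, 0 < δ ∧ δ < δ₀ ∧ ∃ S : Finset (E N × E N), (∀ p ∈ S, ‖p.2‖ = 1) ∧
      ENNReal.ofReal (C * δ ^ (-(κ * N))) * volume (tubes N δ S) < volume (doubles N δ S) := by
  by_contra hcon
  push Not at hcon
  refine h ⟨C, δ₀, hδ₀, fun δ hδ hlt => ?_⟩
  rw [L_le_iff hδ]
  exact fun S hS => hcon δ hδ hlt S hS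

/-- Supermultiplicativity of the optimal constant `L n δ` of the tube doubling inequality in the
dimension, and its consequences for the exponent of the loss: (i) the inequality; (ii) comparison
of exponents in different dimensions; (iii) the tube doubling conjecture in all dimensions is
equivalent to a bound of the loss exponent by `κ N`, for every `κ > 0`, for arbitrarily large
dimensions `N`; (iv) if the conjecture fails, the loss exponent is at least `κ N` in every large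
dimension `N`, for some `κ > 0`. -/
theorem result :
    (∀ (m n : ℕ) (δ : ℝ), 0 < δ → δ < 1 →
      L m δ * L n δ ≤
        ENNReal.ofReal (23 ^ (m + n) * (1 + Real.log (1 / δ)) ^ 2) * L (m + n) (δ / 2)) ∧
    (∀ (n k N : ℕ), 1 ≤ k → n * k ≤ N → ∀ A : ℝ, LossExp N A → ∀ ε : ℝ, 0 < ε →
      LossExp n (A / k + ε)) ∧
    (TubeDoubling ↔
      ∀ κ : ℝ, 0 < κ → ∀ N₀ : ℕ, ∃ N : ℕ, N₀ ≤ N ∧ LossExp N (κ * N)) ∧
    (¬ TubeDoubling → ∃ κ : ℝ, 0 < κ ∧ ∃ N₀ : ℕ, ∀ N : ℕ, N₀ ≤ N → ∀ C δ₀ : ℝ, 0 < δ₀ →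
      ∃ δ : ℝ, 0 < δ ∧ δ < δ₀ ∧ ∃ S : Finset (E N × E N), (∀ p ∈ S, ‖p.2‖ = 1) ∧
        ENNReal.ofReal (C * δ ^ (-(κ * N))) * volume (tubes N δ S) <
          volume (doubles N δ S)) := by
  refine ⟨fun m n δ hδ hδ1 => L_mul_le m n hδ hδ1,
    fun n k N hk hN A hA ε hε => hA.down hk hN hε, tubeDoubling_iff, ?_⟩
  intro h
  rw [tubeDoubling_iff] at h
  push Not at h
  obtain ⟨κ, hκ, N₀, h1⟩ := h
  exact ⟨κ, hκ, N₀, fun N hN C δ₀ hδ₀ => of_not (h1 N hN) C δ₀ hδ₀⟩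

end Pool.Agent.Results.MP_2ce96a_an.SuperMult
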